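import Pool.Agent.P8H67.TU.Stm
import Pool.Agent.Helper922.HB.Sc.Prism
import Pool.Agent.N340.SV.HB

/-!
# TU/PRI (helper57, after TD/PRI of helper80): the prism of the straight homotopy in the fibres
-/

set_option autoImplicit false

open Set

namespace Pool.Agent.P8H57.TU

open Pool.Agent.P8H67.TU
open Pool.Agent.N520.SV (Sx Chain face bdry norm1)
open Pool.Agent.Helper922.HB.Sc

/-- from integral to real coefficients -/
noncomputable def rl {A : Type} : (A →₀ ℤ) →+ (A →₀ ℝ) :=
  Finsupp.mapRange.addMonoidHom (Int.castAddHom ℝ)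

theorem rl_single {A : Type} (a : A) (x : ℤ) :
    rl (Finsupp.single a x) = Finsupp.single a (x : ℝ) := by
  simp [rl]

theorem rl_zsmul {A : Type} (x : ℤ) (c : A →₀ ℤ) : rl (x • c) = (x : ℝ) • rl c := by
  rw [map_zsmul]
  exact (Int.cast_smul_eq_zsmul ℝ x (rl c)).symm

theorem rl_map {A B : Type} (f : A → B) (c : A →₀ ℤ) :
    rl (Finsupp.mapDomain f c) = Finsupp.mapDomain f (rl c) := by
  induction c using Finsupp.induction_linear with
  | zero => simp
  | add c d hc hd => rw [Finsupp.mapDomain_add, map_add, map_add, Finsupp.mapDomain_add, hc, hd]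
  | single a x => rw [Finsupp.mapDomain_single, rl_single, rl_single, Finsupp.mapDomain_single]

theorem bdry_rl {M : Type} [TopologicalSpace M] (k : ℕ) (z : C(Sx (k + 1), M) →₀ ℤ) :
    bdry k (rl z) = rl (sbd M k z) := by
  induction z using Finsupp.induction_linear with
  | zero => simp
  | add c d hc hd => rw [map_add, map_add, map_add, map_add, hc, hd]
  | single a x =>
    have h1 : (Finsupp.single a x : C(Sx (k + 1), M) →₀ ℤ) = x • Finsupp.single a 1 := by simp
    rw [h1, rl_zsmul, map_smul, LinearMap.map_smul, rl_zsmul]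
    congr 1
    rw [rl_single, Int.cast_one]
    show bdry k (Finsupp.single a 1) = rl (bd (sface (X := M)) k (Finsupp.single a 1))
    rw [bd_single, map_sum, bdry, Finsupp.linearCombination_single, one_smul]
    refine Finset.sum_congr rfl fun i _ => ?_
    rw [rl_zsmul, rl_single, Int.cast_one, Int.cast_pow, Int.cast_neg, Int.cast_one]
    rfl

theorem norm1_map_le {A M : Type} [TopologicalSpace M] {k : ℕ} (f : A → C(Sx k, M)) (c : A →₀ ℝ) :
    norm1 (Finsupp.mapDomain f c : Chain k M) ≤ ∑ a ∈ c.support, |c a| := by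
  classical
  have h : ∀ (S : Finset A) (g : A → ℝ),
      norm1 (∑ a ∈ S, Finsupp.single (f a) (g a) : Chain k M) ≤ ∑ a ∈ S, |g a| := by
    intro S g
    induction S using Finset.induction_on with
    | empty => simp [norm1]
    | insert a S ha ih =>
      rw [Finset.sum_insert ha, Finset.sum_insert ha]
      refine (Pool.Agent.N340.SV.HB.norm1_add _ _).trans (add_le_add ?_ ih)
      have h1 : (Finsupp.single (f a) (g a) : Chain k M) = g a • Finsupp.single (f a) 1 := by simp
      rw [h1, Pool.Agent.N340.SV.HB.norm1_smul, Pool.Agent.N340.SV.HB.norm1_single, mul_one]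
  exact h c.support c

section
variable {V U : Type} [NormedAddCommGroup V] [NormedSpace ℝ V] [TopologicalSpace U]

/-- the straight homotopy in the fibres -/
noncomputable def HH {n : ℕ} (v v' : C(Sx n, V)) (u : C(Sx n, U)) :
    C(Sx n × unitInterval, V × U) :=
  ⟨fun p => ((1 - (p.2 : ℝ)) • v p.1 + (p.2 : ℝ) • v' p.1, u p.1), by fun_prop⟩

/-- the universal chain -/
noncomputable def AA (n : ℕ) : (Fin (n + 2) → Dl n × Bool) →₀ ℤ :=
  PR (Dl n) n (Finsupp.single (vert n) 1)

/-- the integral prism -/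
noncomputable def pz (n : ℕ) (v v' : C(Sx n, V)) (u : C(Sx n, U)) :
    C(Sx (n + 1), V × U) →₀ ℤ :=
  Finsupp.mapDomain (fun a => (HH v v' u).comp (paff a)) (AA n)

/-- the real prism -/
noncomputable def pr (n : ℕ) (v v' : C(Sx n, V)) (u : C(Sx n, U)) : Chain (n + 1) (V × U) :=
  rl (pz n v v' u)

theorem pr_eq (n : ℕ) (v v' : C(Sx n, V)) (u : C(Sx n, U)) :
    pr n v v' u = Finsupp.mapDomain (fun a => (HH v v' u).comp (paff a)) (rl (AA n)) :=
  rl_map _ _

theorem PD_eq (n : ℕ) {m : ℕ} (v v' : C(Sx m, V)) (u : C(Sx m, U)) (σ : C(Sx n, Sx m)) :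
    PD (HH v v' u) n (Finsupp.single σ 1) = pz n (v.comp σ) (v'.comp σ) (u.comp σ) := by
  rw [PD_single]
  rfl

theorem bdry_pr (n : ℕ) (v v' : C(Sx (n + 1), V)) (u : C(Sx (n + 1), U)) :
    bdry (n + 1) (pr (n + 1) v v' u) =
    Finsupp.single (v'.prodMk u) 1 - Finsupp.single (v.prodMk u) 1 -
      ∑ i : Fin (n + 2), ((-1 : ℝ) ^ (i : ℕ)) •
        pr n (v.comp (face i)) (v'.comp (face i)) (u.comp (face i)) := by
  have h := sbd_PD (HH v v' u) n (Finsupp.single (ContinuousMap.id (Sx (n + 1))) 1)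
  rw [PD_eq, cpush_single, cpush_single] at h
  have h1 : (slice (HH v v' u) 1).comp (ContinuousMap.id (Sx (n + 1))) = v'.prodMk u := by
    ext t
    · simp [slice, HH]
    · simp [slice, HH]
  have h0 : (slice (HH v v' u) 0).comp (ContinuousMap.id (Sx (n + 1))) = v.prodMk u := by
    ext t
    · simp [slice, HH]
    · simp [slice, HH]
  rw [h1, h0] at h
  have h2 : PD (HH v v' u) n
      (sbd (Sx (n + 1)) n (Finsupp.single (ContinuousMap.id (Sx (n + 1))) 1)) =
      ∑ i : Fin (n + 2), ((-1 : ℤ) ^ (i : ℕ)) •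
        pz n (v.comp (face i)) (v'.comp (face i)) (u.comp (face i)) := by
    show PD (HH v v' u) n (bd (sface (X := Sx (n + 1))) n
      (Finsupp.single (ContinuousMap.id (Sx (n + 1))) 1)) = _
    rw [bd_single, map_sum]
    refine Finset.sum_congr rfl fun i _ => ?_
    rw [map_smul]
    congr 1
    exact PD_eq n v v' u (face i)
  rw [h2] at h
  have h3 := congrArg rl h
  rw [map_add, map_sub, rl_single, rl_single, Int.cast_one, map_sum] at h3
  have h4 : rl (sbd (V × U) (n + 1) (pz (n + 1) (v.comp (ContinuousMap.id (Sx (n + 1))))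
      (v'.comp (ContinuousMap.id (Sx (n + 1)))) (u.comp (ContinuousMap.id (Sx (n + 1)))))) =
      bdry (n + 1) (pr (n + 1) v v' u) := (bdry_rl _ _).symm
  rw [h4] at h3
  rw [← h3, eq_comm, add_sub_assoc, add_eq_left, sub_eq_zero]
  refine Finset.sum_congr rfl fun i _ => ?_
  rw [rl_zsmul, Int.cast_pow, Int.cast_neg, Int.cast_one]
  rfl

end

theorem pri : S_PRI := by
  intro V U _ _ _ _
  refine ⟨pr, fun n v v' u => bdry_pr n v v' u, ?_, ?_⟩
  · intro n
    refine ⟨∑ a ∈ (rl (AA n)).support, |rl (AA n) a|, fun v v' u => ?_⟩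
    rw [pr_eq]
    exact norm1_map_le _ _
  · intro g b h G hG n v v' w w' u u' hw hw' hu
    rw [pr_eq, pr_eq, ← Finsupp.mapDomain_comp]
    congr 1
    funext a
    apply ContinuousMap.ext
    intro t
    show ((1 - ((paff a t).2 : ℝ)) • w (paff a t).1 + ((paff a t).2 : ℝ) • w' (paff a t).1,
        u' (paff a t).1) =
      G ((1 - ((paff a t).2 : ℝ)) • v (paff a t).1 + ((paff a t).2 : ℝ) • v' (paff a t).1,
        u (paff a t).1)
    rw [hG, hw, hw', hu]
    refine Prod.ext ?_ rfl
    show (1 - ((paff a t).2 : ℝ)) • (g (v (paff a t).1) + b (u (paff a t).1)) +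
        ((paff a t).2 : ℝ) • (g (v' (paff a t).1) + b (u (paff a t).1)) =
      g ((1 - ((paff a t).2 : ℝ)) • v (paff a t).1 + ((paff a t).2 : ℝ) • v' (paff a t).1) +
        b (u (paff a t).1)
    rw [map_add, map_smul, map_smul]
    module

end Pool.Agent.P8H57.TU
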