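import Pool.Agent.P8H67.TU.Stm

/-!
# TU/STR (helper57, after TD/STR of helper80): straightening in the fibres
-/

set_option autoImplicit false

open Set

namespace Pool.Agent.P8H57.TU

open Pool.Agent.P8H67.TU
open Pool.Agent.N520.SV (Sx face)

section
variable {V U Γ : Type} [NormedAddCommGroup V] [NormedSpace ℝ V] [TopologicalSpace U]
  [Group Γ] [MulAction Γ U] {θ : Γ →* (V ≃ₗ[ℝ] V)} {c : Γ → U → V}

theorem fac_mul (hS : FSys V U Γ θ c) (γ δ : Γ) (p : V × U) :
    fac θ c (γ * δ) p = fac θ c γ (fac θ c δ p) := by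
  unfold fac
  refine Prod.ext ?_ ?_
  · show θ (γ * δ) p.1 + c (γ * δ) p.2 = θ γ (θ δ p.1 + c δ p.2) + c γ (δ • p.2)
    rw [hS.mul, map_add, map_mul, ← add_assoc]
    rfl
  · exact mul_smul γ δ p.2

theorem c_one (hS : FSys V U Γ θ c) (u : U) : c 1 u = 0 := by
  have h := hS.mul 1 1 u
  rw [mul_one, map_one, one_smul] at h
  have h2 : (1 : V ≃ₗ[ℝ] V) (c 1 u) = c 1 u := rfl
  rw [h2] at h
  exact left_eq_add.1 h

theorem fac_one (hS : FSys V U Γ θ c) (p : V × U) : fac θ c 1 p = p := by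
  unfold fac
  refine Prod.ext ?_ ?_
  · show θ 1 p.1 + c 1 p.2 = p.1
    rw [c_one hS, add_zero, map_one]
    rfl
  · exact one_smul Γ p.2

end

theorem str : S_STR := by
  intro V U Γ _ _ _ _ _ _ θ c hS
  classical
  have hmul := fac_mul hS
  have hone := fac_one hS
  -- orbits
  let R : Setoid (V × U) :=
    { r := fun y y' => ∃ γ : Γ, fac θ c γ y = y'
      iseqv := by
        refine ⟨fun y => ⟨1, hone y⟩, ?_, ?_⟩
        · rintro y y' ⟨γ, rfl⟩
          exact ⟨γ⁻¹, by rw [← hmul, inv_mul_cancel, hone]⟩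
        · rintro y y' y'' ⟨γ, rfl⟩ ⟨δ, rfl⟩
          exact ⟨δ * γ, hmul _ _ _⟩ }
  let d : V × U → V × U := fun y => Quotient.out (Quotient.mk R y)
  have hd : ∀ y, ∃ γ : Γ, fac θ c γ (d y) = y :=
    fun y => Quotient.exact (s := R) (Quotient.out_eq _)
  let κ : V × U → Γ := fun y => (hd y).choose
  have hκ : ∀ y, fac θ c (κ y) (d y) = y := fun y => (hd y).choose_spec
  have hdd : ∀ (δ : Γ) (y : V × U), d (fac θ c δ y) = d y := by
    intro δ y
    have h1 : Quotient.mk R y = Quotient.mk R (fac θ c δ y) := Quotient.sound (s := R) ⟨δ, rfl⟩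
    show Quotient.out (Quotient.mk R (fac θ c δ y)) = Quotient.out (Quotient.mk R y)
    rw [h1]
  have hκκ : ∀ (δ : Γ) (y : V × U), κ (fac θ c δ y) = δ * κ y := by
    intro δ y
    have h3 : fac θ c (κ (fac θ c δ y)) (d y) = fac θ c (δ * κ y) (d y) := by
      rw [hmul, hκ y]
      conv_lhs => rw [← hdd δ y]
      exact hκ (fac θ c δ y)
    have h4 : fac θ c ((δ * κ y)⁻¹ * κ (fac θ c δ y)) (d y) = d y := by
      rw [hmul, h3, ← hmul, inv_mul_cancel, hone]
    have h5 := hS.free _ _ h4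
    rw [inv_mul_eq_one] at h5
    exact h5.symm
  -- the functions `F`
  let F : V × U → U → V := fun y u => c (κ y) ((κ y)⁻¹ • u)
  have hFc : ∀ y, Continuous (F y) := fun y => (hS.ccont (κ y)).comp (hS.cont (κ y)⁻¹)
  have hFeq : ∀ (δ : Γ) (y : V × U) (u : U), F (fac θ c δ y) (δ • u) = θ δ (F y u) + c δ u := by
    intro δ y u
    show c (κ (fac θ c δ y)) ((κ (fac θ c δ y))⁻¹ • δ • u) = θ δ (c (κ y) ((κ y)⁻¹ • u)) + c δ u
    rw [hκκ, hS.mul, mul_inv_rev, smul_smul, inv_mul_cancel_right, smul_smul, mul_inv_cancel,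
      one_smul]
  have hcont : ∀ n (u : C(Sx n, U)) (x : Fin (n + 1) → V × U),
      Continuous fun t : Sx n => ∑ i, t.1 i • F (x i) (u t) := by
    intro n u x
    refine continuous_finsetSum _ fun i _ => ?_
    exact ((continuous_apply i).comp continuous_subtype_val).smul ((hFc (x i)).comp u.continuous)
  refine ⟨fun n u x => ⟨fun t => ∑ i, t.1 i • F (x i) (u t), hcont n u x⟩, ?_, ?_⟩
  · intro n u x i
    apply ContinuousMap.ext
    intro t
    show ∑ j, (face i t).1 j • F (x j) (u (face i t)) =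
      ∑ j, t.1 j • F (x (i.succAbove j)) (u (face i t))
    have hface : ∀ j, (face i t).1 j = ∑ l, if i.succAbove l = j then t.1 l else 0 := by
      intro j
      show FunOnFinite.linearMap ℝ ℝ i.succAbove t.1 j = _
      rw [FunOnFinite.linearMap_apply_apply, Finset.sum_filter]
    rw [Fin.sum_univ_succAbove _ i]
    have h0 : (face i t).1 i = 0 := by
      rw [hface]
      exact Finset.sum_eq_zero fun l _ => if_neg (Fin.succAbove_ne i l)
    have h1 : ∀ j, (face i t).1 (i.succAbove j) = t.1 j := by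
      intro j
      rw [hface, Finset.sum_eq_single j]
      · rw [if_pos rfl]
      · intro b _ hb
        exact if_neg fun h => hb (Fin.succAbove_right_injective h)
      · intro h
        exact absurd (Finset.mem_univ _) h
    rw [h0, zero_smul, zero_add]
    simp only [h1]
  · intro n u u' x γ hu t
    show ∑ i, t.1 i • F (fac θ c γ (x i)) (u' t) = θ γ (∑ i, t.1 i • F (x i) (u t)) + c γ (u t)
    have h1 : ∀ i, t.1 i • F (fac θ c γ (x i)) (u' t) =
        t.1 i • θ γ (F (x i) (u t)) + t.1 i • c γ (u t) := by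
      intro i
      rw [hu t, hFeq, smul_add]
    simp only [h1, Finset.sum_add_distrib, ← Finset.sum_smul]
    rw [t.2.2, one_smul, map_sum]
    simp only [map_smul]

end Pool.Agent.P8H57.TU
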